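import Pool.Agent.H891R2.VS.Dom
import Pool.Agent.H891R2.SI.Fin

set_option autoImplicit false

/-! Vassiliev invariants of bounded order detect long twist regions in arbitrary diagrams. -/

namespace Pool.Agent.H891R2.VS

open Finset LaurentPolynomial Pool.Agent.H891R2.Jones Pool.Agent.H891R2.MT Pool.Agent.H891R2.SI
  Pool.Agent.H832R3.VJ

theorem card_support_sum {ι : Type} (s : Finset ι) (f : ι → ℤ[T;T⁻¹]) (B : ℕ)
    (h : ∀ i ∈ s, (f i).coeff.support.card ≤ B) :
    (∑ i ∈ s, f i).coeff.support.card ≤ s.card * B := by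
  classical
  induction s using Finset.induction_on with
  | empty => simp
  | insert a s ha ih =>
    rw [Finset.sum_insert ha, Finset.card_insert_of_notMem ha]
    have h1 := ih (fun i hi => h i (Finset.mem_insert_of_mem hi))
    have h2 := h a (Finset.mem_insert_self _ _)
    have h3 : (f a + ∑ i ∈ s, f i).coeff.support.card ≤ 
        (f a).coeff.support.card + (∑ i ∈ s, f i).coeff.support.card := by
      have := FinL.card_support_sub (f a) (-∑ i ∈ s, f i)
      rw [sub_neg_eq_add] at this
      refine this.trans (add_le_add_right ?_ _)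
      have h4 : (-∑ i ∈ s, f i : ℤ[T;T⁻¹]) = C (-1) * T 0 * (∑ i ∈ s, f i) := by
        rw [T_zero, mul_one, map_neg, map_one, neg_one_mul]
      rw [h4]
      exact FinL.card_support_unit _ _ _
    refine h3.trans ?_
    rw [add_mul, one_mul]
    omega

theorem site {k : ℕ} (hk : 0 < k) (O : Sites k) (hO : O.Connected) (hdet : det O.cut ≠ 0) 
    (w : Fin k → ℤ) (hw : ∀ e, 2 * O.crossings.length + 4 * k ≤ |w e|)
    (D : Diagram (O.P ⊕ Ribbon.Pt w)) (hD : Orients D (O.fill w)) :
    Separated (2 ^ k * (6 * O.crossings.length + 8 * k + 1) + 4 * k) 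
      ⟨_, inferInstance, D⟩ unknot := by
  have hne : D.fPoly ≠ 1 := by
    intro h1
    have h2 := SI.Fin.main O hk hO hdet w hw D hD 0 0 (by
      rw [h1]
      intro j hj
      have := T4b.SIn.one j hj
      exact this)
    have h3 : (k : ℤ) * (2 * O.crossings.length + 4 * k) ≤ ∑ e, |w e| := by
      have := Finset.card_nsmul_le_sum Finset.univ (fun e => |w e|) _ (fun e _ => hw e)
      simpa using this
    have hk' : (1 : ℤ) ≤ k := by exact_mod_cast hk
    have hc : (0 : ℤ) ≤ O.crossings.length := by positivity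
    nlinarith [mul_le_mul_of_nonneg_right hk' hc, 
      mul_le_mul_of_nonneg_right hk' (by linarith : (0:ℤ) ≤ k)]
  have : Nonempty (O.P ⊕ Ribbon.Pt w) := ⟨.inl (O.corner ⟨0, hk⟩ false false)⟩
  have hb : D.bracket = (O.fill w).std.bracket := MT.T6.bracket_orients D (O.fill w) hD
  have hs := separated_of_ne (2 ^ k * (6 * O.crossings.length + 8 * k + 1) + 4 * k + 1)
    ⟨_, inferInstance, D⟩ unknot ((-T 2 - T (-2)) ^ k) (pow_ne_zero _ FinL.delta_ne) ?_ ?_
  · exact hs
  · rw [mul_sub]
    refine (FinL.card_support_sub _ _).trans ?_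
    have h1 : ((-T 2 - T (-2) : ℤ[T;T⁻¹]) ^ k * D.fPoly).coeff.support.card ≤ 
        2 ^ k * (6 * O.crossings.length + 8 * k + 1) := by
      have hf : ∃ ε m : ℤ, (-T 2 - T (-2) : ℤ[T;T⁻¹]) ^ k * D.fPoly = 
          C ε * T m * ((-T 2 - T (-2)) ^ k * T (- ∑ e, w e) * (O.fill w).std.bracket) := by
        refine ⟨if Even D.writhe then 1 else -1, -3 * D.writhe + ∑ e, w e, ?_⟩
        rw [← hb, T_add]
        have h1 : (T (∑ e, w e) : ℤ[T;T⁻¹]) * T (- ∑ e, w e) = 1 := by
          rw [← T_add, add_neg_cancel, T_zero]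
        unfold Diagram.fPoly
        by_cases hw : Even D.writhe
        · simp only [hw, if_true, map_one, one_mul]
          linear_combination (-(-T 2 - T (-2) : ℤ[T;T⁻¹]) ^ k * T (-3 * D.writhe) * D.bracket) * h1
        · simp only [hw, if_false, map_neg, map_one]
          linear_combination ((-T 2 - T (-2) : ℤ[T;T⁻¹]) ^ k * T (-3 * D.writhe) * D.bracket) * h1
      obtain ⟨ε, m, hf⟩ := hf
      rw [hf]
      refine (FinL.card_support_unit _ _ _).trans ?_
      rw [SI.S3 O hk w]
      refine (card_support_sum _ _ (6 * O.crossings.length + 8 * k + 1) ?_).trans ?_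
      · intro R _
        have h4 : ((-1) ^ (nS w R).natAbs * T (-4 * nS w R) : ℤ[T;T⁻¹]) * SI.Zp O R = 
            C ((-1) ^ (nS w R).natAbs) * T (-4 * nS w R) * SI.Zp O R := by
          rw [map_pow, map_neg, map_one]
        rw [h4]
        refine (FinL.card_support_unit _ _ _).trans ?_
        have h5 := card_support_le (SI.Zp O R) (-(3 * O.crossings.length + 4 * k)) 
          (2 * (3 * O.crossings.length + 4 * k)) (by positivity) (fun j hj => by
            have := SI.S4 O hO R j hj
            constructor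
            · exact this.1
            · linarith [this.2])
        omega
      · simp
    have h2 : ((-T 2 - T (-2) : ℤ[T;T⁻¹]) ^ k * unknot.D.fPoly).coeff.support.card ≤ 4 * k + 1 := by
      rw [fPoly_unknot, mul_one]
      have h5 := card_support_le ((-T 2 - T (-2) : ℤ[T;T⁻¹]) ^ k) (-(k * 2)) (4 * k) (by positivity)
        (fun j hj => by
          have := (T4b.SIn_d.pow k) j hj
          constructor
          · exact this.1
          · linarith [this.2])
      omega
    have h6 : (⟨_, inferInstance, D⟩ : Dia).D.fPoly = D.fPoly := rfl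
    rw [h6]
    omega
  · rw [fPoly_unknot]; exact hne

end Pool.Agent.H891R2.VS
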