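import Pool.Agent.H832R3.VJ.Fin
import Pool.Agent.H891R2.DS.Final

set_option autoImplicit false

/-! Vassiliev invariants of diagrams with dominated states. -/

namespace Pool.Agent.H891R2.VS

open Finset LaurentPolynomial Pool.Agent.H891R2.Jones Pool.Agent.H891R2.MT Pool.Agent.H891R2.DS 
  Pool.Agent.H832R3.VJ

theorem card_support_le (f : ℤ[T;T⁻¹]) (m s : ℤ) (hs : 0 ≤ s) 
    (h : ∀ j, f.coeff j ≠ 0 → m ≤ j ∧ j ≤ m + s) : f.coeff.support.card ≤ s.toNat + 1 := by
  have h1 : f.coeff.support ⊆ Finset.Icc m (m + s) := by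
    intro j hj
    rw [Finsupp.mem_support_iff] at hj
    exact Finset.mem_Icc.2 (h j hj)
  refine (Finset.card_le_card h1).trans ?_
  rw [Int.card_Icc]
  omega

/-- the data of a diagram with two dominated states -/
structure DomDiagram where
  k : ℕ
  pos : 0 < k
  Γ : Ribbon k
  planar : Γ.Planar
  R : Finset (Fin k)
  S₁ : Finset (Fin k)
  S₂ : Finset (Fin k)
  dom₁ : Dom (stateGraph Γ S₁) (Asm R S₁)
  dom₂ : Dom (stateGraph Γ S₂) (Asm R S₂)ᶜ
  D : Diagram (Ribbon.Pt (sg R))
  orients : Orients D (Γ.link (sg R))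
  closed : D.IsClosed

namespace DomDiagram

noncomputable def span (X : DomDiagram) : ℤ := spanA X.Γ X.R X.S₁ X.S₂

def dia (X : DomDiagram) : Dia := ⟨_, inferInstance, X.D⟩

theorem main (X : DomDiagram) : ∃ m : ℤ, 
    (∀ j, X.D.fPoly.coeff j ≠ 0 → m ≤ j ∧ j ≤ m + X.span) ∧ 
      |X.D.fPoly.coeff m| = 1 ∧ |X.D.fPoly.coeff (m + X.span)| = 1 :=
  (final X.Γ X.planar X.pos X.R X.S₁ X.S₂ X.dom₁ X.dom₂ X.D X.orients).1

theorem span_nonneg (X : DomDiagram) : 0 ≤ X.span := by
  obtain ⟨m, h1, h2, -⟩ := X.main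
  have : X.D.fPoly.coeff m ≠ 0 := by
    intro h; rw [h] at h2; simp at h2
  have := (h1 m this).2
  linarith

end DomDiagram

theorem detect (X : DomDiagram) (h : ∃ e, ¬ Nugatory X.Γ e) : 
    Separated (X.span.toNat + 1) X.dia unknot := by
  have hne : X.D.fPoly ≠ 1 := 
    ((final X.Γ X.planar X.pos X.R X.S₁ X.S₂ X.dom₁ X.dom₂ X.D X.orients).2 h).2
  obtain ⟨m, h1, -, -⟩ := X.main
  have hc := card_support_le X.D.fPoly m X.span X.span_nonneg h1
  have := separated_of_ne (X.span.toNat + 2) X.dia unknot 1 one_ne_zero ?_ ?_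
  · exact this
  · rw [one_mul]
    refine (FinL.card_support_sub _ _).trans ?_
    have h2 : unknot.D.fPoly.coeff.support.card ≤ 1 := by
      rw [fPoly_unknot]
      have := card_support_le (1 : ℤ[T;T⁻¹]) 0 0 le_rfl (by
        intro j hj
        have h5 : (1 : ℤ[T;T⁻¹]).coeff j = if (0 : ℤ) = j then 1 else 0 := by
          rw [← T_zero]; exact Finsupp.single_apply
        rw [h5] at hj
        by_cases h0 : (0 : ℤ) = j
        · omega
        · rw [if_neg h0] at hj; exact absurd rfl hj)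
      simp
    have h3 : X.dia.D.fPoly.coeff.support.card ≤ X.span.toNat + 1 := hc
    omega
  · rw [fPoly_unknot]; exact hne

theorem separate (X Y : DomDiagram) (h : X.span ≠ Y.span) : 
    Separated (X.span.toNat + Y.span.toNat + 1) X.dia Y.dia := by
  obtain ⟨m, a1, a2, a3⟩ := X.main
  obtain ⟨n, b1, b2, b3⟩ := Y.main
  have hX := X.span_nonneg
  have hY := Y.span_nonneg
  have hne : X.D.fPoly ≠ Y.dia.D.fPoly := by
    intro he
    have he' : ∀ j, X.D.fPoly.coeff j = Y.D.fPoly.coeff j := fun j => by rw [he]; rfl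
    apply h
    have nz : ∀ {x : ℤ}, |x| = 1 → x ≠ 0 := by
      intro x hx h0; rw [h0] at hx; simp at hx
    have c1 := b1 m (by rw [← he']; exact nz a2)
    have c2 := b1 (m + X.span) (by rw [← he']; exact nz a3)
    have c3 := a1 n (by rw [he']; exact nz b2)
    have c4 := a1 (n + Y.span) (by rw [he']; exact nz b3)
    linarith [c1.1, c1.2, c2.1, c2.2, c3.1, c3.2, c4.1, c4.2]
  refine separated_of_ne (X.span.toNat + Y.span.toNat + 2) X.dia Y.dia 1 one_ne_zero ?_ hne
  rw [one_mul]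
  refine (FinL.card_support_sub _ _).trans ?_
  have h3 : X.dia.D.fPoly.coeff.support.card ≤ X.span.toNat + 1 := 
    card_support_le X.D.fPoly m X.span hX a1
  have h4 : Y.dia.D.fPoly.coeff.support.card ≤ Y.span.toNat + 1 := 
    card_support_le Y.D.fPoly n Y.span hY b1
  omega

end Pool.Agent.H891R2.VS
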