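import Pool.Agent.H832R3.VJ.Fin
import Pool.Agent.H891R2.RF.Fin

set_option autoImplicit false

/-! Rational fillings on which all Vassiliev invariants are trivial. -/

namespace Pool.Agent.H891R2.VS

open Finset LaurentPolynomial Pool.Agent.H891R2.Jones Pool.Agent.H891R2.MT Pool.Agent.H891R2.RF
  Pool.Agent.H832R3.VJ

/-- the diagram `U` of a link has, for some directions, the same values as the unknot under all integer
valued Vassiliev invariants -/
def VassilievTrivial {P : Type} [hP : Finite P] [DecidableEq P] (U : UDiagram P) : Prop := 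
  ∃ D : Diagram P, Orients D U ∧ D.IsClosed ∧ ∀ d, ¬ Separated d ⟨P, hP, D⟩ unknot

theorem jonesTrivial_of {P : Type} [Finite P] [DecidableEq P] (U : UDiagram P) (h : VassilievTrivial U) : 
    JonesTrivial U := by
  obtain ⟨D, hD, -, hs⟩ := h
  refine ⟨D, hD, ?_⟩
  by_contra hne
  refine hs _ (separated_of_ne _ ⟨P, inferInstance, D⟩ unknot 1 one_ne_zero le_rfl ?_)
  rw [fPoly_unknot]
  exact hne

theorem rat (W : Outer4) : 
    ((∀ R₁ R₂ : Tangle, VassilievTrivial (W.fill R₁) → VassilievTrivial (W.fill R₂) → 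
      slope R₁ ≠ slope R₂ → Odd (RF.dist R₁ R₂)) ∧
     ∃ s₁ s₂ : OnePoint ℚ, ∀ R : Tangle, VassilievTrivial (W.fill R) → 
      slope R = s₁ ∨ slope R = s₂) ∨
    (JonesRational W ∧ ∃ R₀ : Tangle, ∀ R : Tangle, VassilievTrivial (W.fill R) → 
      RF.dist R R₀ = 1) := by
  rcases RF.Fin.main W with ⟨h1, R₀, h2⟩ | ⟨h1, s₁, s₂, h2⟩
  · exact Or.inr ⟨h1, R₀, fun R hR => h2 R (jonesTrivial_of _ hR)⟩
  · exact Or.inl ⟨fun R₁ R₂ a b => h1 R₁ R₂ (jonesTrivial_of _ a) (jonesTrivial_of _ b), 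
      s₁, s₂, fun R hR => h2 R (jonesTrivial_of _ hR)⟩

end Pool.Agent.H891R2.VS
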